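import Pool.Agent.P8H38.SB.Stm

/-!
# Project SB: the dyadic upper bound
-/

set_option autoImplicit false

namespace Pool.Agent.P8H7.SB

open Filter Topology MeasureTheory Set
open Pool.Agent.P8H38.SB

/-- the pointwise bound -/
lemma point {g y : ℝ} (hg : 0 < g) (hy : 0 < y) (K : ℕ) (hK : g ≤ 2 ^ K * (1 / y)) :
    (1 - Real.cos (g * y)) / (1 / 4 + g ^ 2) ≤
      ∑ k ∈ Finset.range (K + 1), if g ≤ 2 ^ k * (1 / y) then 8 * (1 / (2 ^ k * (1 / y)) ^ 2) else 0 := by
  classical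
  have hex : ∃ k : ℕ, g ≤ 2 ^ k * (1 / y) := ⟨K, hK⟩
  set k := Nat.find hex with hk
  have h1 : g ≤ 2 ^ k * (1 / y) := Nat.find_spec hex
  have h2 : k ≤ K := Nat.find_min' hex hK
  have h3 : (if g ≤ 2 ^ k * (1 / y) then 8 * (1 / (2 ^ k * (1 / y)) ^ 2) else 0) ≤
      ∑ k ∈ Finset.range (K + 1), if g ≤ 2 ^ k * (1 / y) then 8 * (1 / (2 ^ k * (1 / y)) ^ 2) else 0 := by
    apply Finset.single_le_sum (f := fun k => if g ≤ 2 ^ k * (1 / y) then
      8 * (1 / (2 ^ k * (1 / y)) ^ 2) else 0)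
    · intro i _
      split_ifs <;> positivity
    · rw [Finset.mem_range]
      omega
  refine le_trans ?_ h3
  rw [if_pos h1]
  have hcos : 0 ≤ 1 - Real.cos (g * y) := by linarith [Real.cos_le_one (g * y)]
  have h4 : (1 - Real.cos (g * y)) / (1 / 4 + g ^ 2) ≤ (1 - Real.cos (g * y)) / g ^ 2 := by
    apply div_le_div_of_nonneg_left hcos (by positivity)
    linarith
  refine h4.trans ?_
  rcases Nat.eq_zero_or_pos k with h0 | h0
  · have h5 := Real.one_sub_sq_div_two_le_cos (x := g * y)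
    rw [h0, div_le_iff₀ (by positivity)]
    have e1 : 8 * (1 / (2 ^ 0 * (1 / y)) ^ 2) * g ^ 2 = 8 * (g * y) ^ 2 := by
      field_simp
    rw [e1]
    nlinarith [sq_nonneg (g * y)]
  · have h6 : ¬ g ≤ 2 ^ (k - 1) * (1 / y) := Nat.find_min hex (by omega)
    push Not at h6
    have h7 : (2 : ℝ) ^ k * (1 / y) ≤ 2 * g := by
      have : (2 : ℝ) ^ k = 2 * 2 ^ (k - 1) := by
        rw [← pow_succ']
        congr 1
        omega
      rw [this]
      linarith
    have h8 : 0 < (2 : ℝ) ^ k * (1 / y) := by positivity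
    have h9 : (2 ^ k * (1 / y)) ^ 2 ≤ 4 * g ^ 2 := by nlinarith
    have h10 : 1 - Real.cos (g * y) ≤ 2 := by linarith [Real.neg_one_le_cos (g * y)]
    calc (1 - Real.cos (g * y)) / g ^ 2 ≤ 2 / g ^ 2 :=
          div_le_div_of_nonneg_right h10 (by positivity)
      _ = 8 * (1 / (4 * g ^ 2)) := by field_simp; norm_num
      _ ≤ 8 * (1 / (2 ^ k * (1 / y)) ^ 2) := by
          apply mul_le_mul_of_nonneg_left _ (by norm_num)
          exact one_div_le_one_div_of_le (by positivity) h9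

lemma sum_le_NN {ι : Type} {g b : ι → ℝ} (hb : ∀ i, 0 ≤ b i) (hf : ∀ T : ℝ, {i | g i ≤ T}.Finite)
    (F : Finset ι) (T : ℝ) : ∑ i ∈ F, (if g i ≤ T then b i else 0) ≤ NN g b T := by
  unfold NN
  apply Summable.sum_le_tsum
  · intro i _
    split_ifs
    · exact hb i
    · exact le_rfl
  · apply summable_of_finite_support
    apply (hf T).subset
    intro i hi
    rw [Function.mem_support] at hi
    by_contra hcon
    exact hi (if_neg hcon)

/-- UPP -/
theorem upp : S_UPP := by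
  intro ι g b h α C hα hα2 hN
  set r : ℝ := (2 : ℝ) ^ (α - 2) with hr
  have hr0 : 0 < r := by positivity
  have hr1 : r < 1 := Real.rpow_lt_one_of_one_lt_of_neg (by norm_num) (by linarith)
  have hNN0 : ∀ T, 0 ≤ NN g b T := fun T => by
    have := sum_le_NN h.nonneg h.fin ∅ T
    simpa using this
  have hC : 0 ≤ C := by
    have h1 := hN 1 le_rfl
    rw [Real.one_rpow, mul_one] at h1
    exact (hNN0 1).trans h1
  refine ⟨8 * C * (1 / (1 - r)), fun y hy hy1 => ?_⟩
  have hY : 1 ≤ 1 / y := by rw [le_div_iff₀ hy]; linarith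
  unfold Ps
  apply tsum_le_of_sum_le'
  · have : 0 < 1 - r := by linarith
    positivity
  intro F
  obtain ⟨K, hK⟩ : ∃ K : ℕ, ∀ i ∈ F, g i ≤ 2 ^ K * (1 / y) := by
    have h1 : ∀ i, ∃ K : ℕ, g i ≤ 2 ^ K := by
      intro i
      obtain ⟨K, hK⟩ := pow_unbounded_of_one_lt (g i) (by norm_num : (1 : ℝ) < 2)
      exact ⟨K, hK.le⟩
    choose κ hκ using h1
    refine ⟨F.sup κ, fun i hi => ?_⟩
    have h2 : κ i ≤ F.sup κ := Finset.le_sup hi
    have h3 : (2 : ℝ) ^ κ i ≤ 2 ^ F.sup κ := pow_le_pow_right₀ (by norm_num) h2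
    have h4 : (0 : ℝ) < 2 ^ F.sup κ := by positivity
    nlinarith [hκ i]
  have h1 : ∀ i ∈ F, (1 - Real.cos (g i * y)) * wt g b i ≤ ∑ k ∈ Finset.range (K + 1),
      8 * (1 / (2 ^ k * (1 / y)) ^ 2) * (if g i ≤ 2 ^ k * (1 / y) then b i else 0) := by
    intro i hi
    have h2 := mul_le_mul_of_nonneg_right (point (h.pos i) hy K (hK i hi)) (h.nonneg i)
    rw [Finset.sum_mul] at h2
    refine (le_of_eq ?_).trans (h2.trans (le_of_eq ?_))
    · unfold wt
      ring
    · refine Finset.sum_congr rfl fun k _ => ?_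
      split_ifs <;> ring
  refine (Finset.sum_le_sum h1).trans ?_
  rw [Finset.sum_comm]
  have h3 : ∀ k ∈ Finset.range (K + 1), ∑ i ∈ F, 8 * (1 / (2 ^ k * (1 / y)) ^ 2) *
      (if g i ≤ 2 ^ k * (1 / y) then b i else 0) ≤ 8 * C * y ^ (2 - α) * r ^ k := by
    intro k _
    rw [← Finset.mul_sum]
    have hT : 1 ≤ (2 : ℝ) ^ k * (1 / y) := by
      have : (1 : ℝ) ≤ 2 ^ k := one_le_pow₀ (by norm_num)
      nlinarith
    have h4 := (sum_le_NN h.nonneg h.fin F (2 ^ k * (1 / y))).trans (hN _ hT)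
    have hT0 : 0 < (2 : ℝ) ^ k * (1 / y) := by linarith
    calc 8 * (1 / (2 ^ k * (1 / y)) ^ 2) * ∑ i ∈ F, (if g i ≤ 2 ^ k * (1 / y) then b i else 0) ≤
        8 * (1 / (2 ^ k * (1 / y)) ^ 2) * (C * (2 ^ k * (1 / y)) ^ α) :=
          mul_le_mul_of_nonneg_left h4 (by positivity)
      _ = 8 * C * ((2 ^ k * (1 / y)) ^ (α - 2)) := by
          rw [Real.rpow_sub hT0, Real.rpow_two]
          ring
      _ = 8 * C * y ^ (2 - α) * r ^ k := by
          rw [Real.mul_rpow (by positivity) (by positivity)]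
          have e1 : ((2 : ℝ) ^ k) ^ (α - 2) = r ^ k := by
            rw [hr, ← Real.rpow_natCast, ← Real.rpow_natCast, ← Real.rpow_mul (by norm_num),
              ← Real.rpow_mul (by norm_num)]
            congr 1
            ring
          have e2 : (1 / y) ^ (α - 2) = y ^ (2 - α) := by
            rw [one_div, Real.inv_rpow hy.le, ← Real.rpow_neg hy.le]
            congr 1
            ring
          rw [e1, e2]
          ring
  refine (Finset.sum_le_sum h3).trans ?_
  rw [← Finset.mul_sum]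
  have h5 : ∑ k ∈ Finset.range (K + 1), r ^ k ≤ 1 / (1 - r) := by
    have h6 := (summable_geometric_of_lt_one hr0.le hr1).sum_le_tsum (Finset.range (K + 1))
      (fun i _ => by positivity)
    rw [tsum_geometric_of_lt_one hr0.le hr1] at h6
    rwa [one_div]
  have h7 : 0 ≤ 8 * C * y ^ (2 - α) := by positivity
  calc 8 * C * y ^ (2 - α) * ∑ k ∈ Finset.range (K + 1), r ^ k ≤ 8 * C * y ^ (2 - α) * (1 / (1 - r)) :=
        mul_le_mul_of_nonneg_left h5 h7
    _ = _ := by ring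

end Pool.Agent.P8H7.SB
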